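import Pool.Agent.Helper87.VM.Lib2

/-!
# Isotrivial VMRT: the module SEG (the Segre product of projective manifolds)
-/

set_option autoImplicit false

namespace Pool.Agent.Helper87.VM

open MvPolynomial Pool.Agent.Helper48.VMRT

section

variable {κ₁ κ₂ : Type}

/-- the column `j` of a matrix -/
def xseg_col (j : κ₂) : (κ₁ × κ₂ → ℂ) →ₗ[ℂ] (κ₁ → ℂ) := LinearMap.funLeft ℂ ℂ (fun i => (i, j))

/-- the row `i` of a matrix -/
def xseg_row (i : κ₁) : (κ₁ × κ₂ → ℂ) →ₗ[ℂ] (κ₂ → ℂ) := LinearMap.funLeft ℂ ℂ (fun j => (i, j))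

theorem xseg_col_apply (j : κ₂) (z : κ₁ × κ₂ → ℂ) (i : κ₁) : xseg_col j z i = z (i, j) := rfl

theorem xseg_row_apply (i : κ₁) (z : κ₁ × κ₂ → ℂ) (j : κ₂) : xseg_row i z j = z (i, j) := rfl

/-- `seg` with fixed second factor as a linear map -/
def xseg_L (y : κ₂ → ℂ) : (κ₁ → ℂ) →ₗ[ℂ] (κ₁ × κ₂ → ℂ) where
  toFun x := seg x y
  map_add' x x' := seg_add_left x x' y
  map_smul' a x := seg_smul_left a x y

/-- `seg` with fixed first factor as a linear map -/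
def xseg_R (x : κ₁ → ℂ) : (κ₂ → ℂ) →ₗ[ℂ] (κ₁ × κ₂ → ℂ) where
  toFun y := seg x y
  map_add' y y' := seg_add_right x y y'
  map_smul' a y := seg_smul_right a x y

theorem xseg_L_apply (x : κ₁ → ℂ) (y : κ₂ → ℂ) : xseg_L y x = seg x y := rfl

theorem xseg_R_apply (x : κ₁ → ℂ) (y : κ₂ → ℂ) : xseg_R x y = seg x y := rfl

theorem xseg_col_seg (x : κ₁ → ℂ) (y : κ₂ → ℂ) (j : κ₂) : xseg_col j (seg x y) = y j • x := by
  funext i
  rw [xseg_col_apply, seg_apply, Pi.smul_apply, smul_eq_mul, mul_comm]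

theorem xseg_row_seg (x : κ₁ → ℂ) (y : κ₂ → ℂ) (i : κ₁) : xseg_row i (seg x y) = x i • y := by
  funext j
  rw [xseg_row_apply, seg_apply, Pi.smul_apply, smul_eq_mul]

/-- the cone over the Segre product in terms of equations -/
theorem xseg_mem_iff {S₁ : Set (κ₁ → ℂ)} {S₂ : Set (κ₂ → ℂ)}
    (hc1 : ∀ a : ℂ, ∀ x ∈ S₁, a • x ∈ S₁) (hc2 : ∀ a : ℂ, ∀ x ∈ S₂, a • x ∈ S₂)
    (h01 : (0 : κ₁ → ℂ) ∈ S₁) (h02 : (0 : κ₂ → ℂ) ∈ S₂) (z : κ₁ × κ₂ → ℂ) :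
    z ∈ segS S₁ S₂ ↔ (∀ i i' j j', z (i, j) * z (i', j') = z (i, j') * z (i', j)) ∧
      (∀ j, xseg_col j z ∈ S₁) ∧ ∀ i, xseg_row i z ∈ S₂ := by
  constructor
  · rintro ⟨x, hx, y, hy, rfl⟩
    refine ⟨?_, ?_, ?_⟩
    · intro i i' j j'
      simp only [seg_apply]
      ring
    · intro j
      rw [xseg_col_seg]
      exact hc1 _ x hx
    · intro i
      rw [xseg_row_seg]
      exact hc2 _ y hy
  · rintro ⟨h1, h2, h3⟩
    by_cases hz : z = 0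
    · exact ⟨0, h01, 0, h02, by rw [hz, seg_zero_left]⟩
    · obtain ⟨⟨i0, j0⟩, h0⟩ := Function.ne_iff.1 hz
      have h0' : z (i0, j0) ≠ 0 := h0
      refine ⟨xseg_col j0 z, h2 j0, (z (i0, j0))⁻¹ • xseg_row i0 z, hc2 _ _ (h3 i0), ?_⟩
      funext ⟨i, j⟩
      rw [seg_apply, xseg_col_apply, Pi.smul_apply, smul_eq_mul, xseg_row_apply]
      have h := h1 i i0 j j0
      field_simp
      linear_combination h

/-- the minors vanish on the Segre product -/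
theorem xseg_minor {S₁ : Set (κ₁ → ℂ)} {S₂ : Set (κ₂ → ℂ)} (i i' : κ₁) (j j' : κ₂) :
    (X (i, j) * X (i', j') - X (i, j') * X (i', j) : MvPolynomial (κ₁ × κ₂) ℂ) ∈
      vanishingIdeal ℂ (segS S₁ S₂) := by
  rw [mem_vI]
  rintro _ ⟨x, _, y, _, rfl⟩
  simp only [map_sub, map_mul, eval_X, seg_apply]
  ring

end

section

variable {κ₁ κ₂ : Type} [Fintype κ₁] [Fintype κ₂]

omit [Fintype κ₁] [Fintype κ₂] in
/-- closedness -/
theorem xseg_closed {S₁ : Set (κ₁ → ℂ)} {S₂ : Set (κ₂ → ℂ)} (h1 : ZClosed S₁) (h2 : ZClosed S₂)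
    (hc1 : ∀ a : ℂ, ∀ x ∈ S₁, a • x ∈ S₁) (hc2 : ∀ a : ℂ, ∀ x ∈ S₂, a • x ∈ S₂)
    (h01 : (0 : κ₁ → ℂ) ∈ S₁) (h02 : (0 : κ₂ → ℂ) ∈ S₂) : ZClosed (segS S₁ S₂) := by
  have hset : segS S₁ S₂ = {z : κ₁ × κ₂ → ℂ | ∀ p ∈ (Set.range fun t : (κ₁ × κ₁) × (κ₂ × κ₂) =>
      (X (t.1.1, t.2.1) * X (t.1.2, t.2.2) - X (t.1.1, t.2.2) * X (t.1.2, t.2.1) :
        MvPolynomial (κ₁ × κ₂) ℂ)), eval z p = 0} ∩
      ((⋂ j : κ₂, {z : κ₁ × κ₂ → ℂ | ev (fun i : κ₁ => (X (i, j) : MvPolynomial (κ₁ × κ₂) ℂ)) z ∈ S₁}) ∩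
      ⋂ i : κ₁, {z : κ₁ × κ₂ → ℂ | ev (fun j : κ₂ => (X (i, j) : MvPolynomial (κ₁ × κ₂) ℂ)) z ∈ S₂}) := by
    ext z
    rw [xseg_mem_iff hc1 hc2 h01 h02]
    have e1 : ∀ j : κ₂, ev (fun i : κ₁ => (X (i, j) : MvPolynomial (κ₁ × κ₂) ℂ)) z = xseg_col j z := by
      intro j
      funext i
      simp only [ev, eval_X, xseg_col_apply]
    have e2 : ∀ i : κ₁, ev (fun j : κ₂ => (X (i, j) : MvPolynomial (κ₁ × κ₂) ℂ)) z = xseg_row i z := by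
      intro i
      funext j
      simp only [ev, eval_X, xseg_row_apply]
    rw [Set.mem_inter_iff, Set.mem_inter_iff, Set.mem_iInter, Set.mem_iInter]
    simp only [Set.mem_ofPred_eq, e1, e2]
    refine and_congr ?_ Iff.rfl
    constructor
    · rintro h _ ⟨t, rfl⟩
      simp only [map_sub, map_mul, eval_X]
      exact sub_eq_zero.2 (h _ _ _ _)
    · intro h i i' j j'
      have := h _ ⟨((i, i'), (j, j')), rfl⟩
      simp only [map_sub, map_mul, eval_X] at this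
      exact sub_eq_zero.1 this
  rw [hset]
  refine zclosed_inter (zclosed_eqs _) (zclosed_inter ?_ ?_)
  · exact zclosed_iInter fun j => zclosed_preimage h1 _
  · exact zclosed_iInter fun i => zclosed_preimage h2 _

/-- irreducibility -/
theorem xseg_irred (hP : ST_PROD) {S₁ : Set (κ₁ → ℂ)} {S₂ : Set (κ₂ → ℂ)}
    (h1 : (vanishingIdeal ℂ S₁).IsPrime) (h2 : (vanishingIdeal ℂ S₂).IsPrime) :
    (vanishingIdeal ℂ (segS S₁ S₂)).IsPrime := by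
  have hset : segS S₁ S₂ = ev (fun t : κ₁ × κ₂ =>
      (X (Sum.inl t.1) * X (Sum.inr t.2) : MvPolynomial (κ₁ ⊕ κ₂) ℂ)) ''
      {z : κ₁ ⊕ κ₂ → ℂ | (fun i => z (Sum.inl i)) ∈ S₁ ∧ (fun j => z (Sum.inr j)) ∈ S₂} := by
    ext z
    constructor
    · rintro ⟨x, hx, y, hy, rfl⟩
      refine ⟨Sum.elim x y, ⟨hx, hy⟩, ?_⟩
      funext t
      simp only [ev, map_mul, eval_X, Sum.elim_inl, Sum.elim_inr, seg]
    · rintro ⟨u, ⟨hx, hy⟩, rfl⟩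
      refine ⟨fun i => u (Sum.inl i), hx, fun j => u (Sum.inr j), hy, ?_⟩
      funext t
      simp only [ev, map_mul, eval_X, seg]
  rw [hset]
  exact prime_image _ (hP κ₁ κ₂ S₁ S₂ h1 h2)

/-- the tangent spaces -/
theorem xseg_tan {S₁ : Set (κ₁ → ℂ)} {S₂ : Set (κ₂ → ℂ)}
    (hc1 : ∀ a : ℂ, ∀ x ∈ S₁, a • x ∈ S₁) (hc2 : ∀ a : ℂ, ∀ x ∈ S₂, a • x ∈ S₂)
    {x : κ₁ → ℂ} (hx : x ∈ S₁) (hx0 : x ≠ 0) {y : κ₂ → ℂ} (hy : y ∈ S₂) (hy0 : y ≠ 0)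
    (v : κ₁ × κ₂ → ℂ) :
    v ∈ tsp (segS S₁ S₂) (seg x y) ↔
        ∃ x' ∈ tsp S₁ x, ∃ y' ∈ tsp S₂ y, v = seg x' y + seg x y' := by
  constructor
  · intro hv
    obtain ⟨i0, hi0⟩ := Function.ne_iff.1 hx0
    obtain ⟨j0, hj0⟩ := Function.ne_iff.1 hy0
    have hi0' : x i0 ≠ 0 := hi0
    have hj0' : y j0 ≠ 0 := hj0
    have hcol : ∀ z ∈ segS S₁ S₂, xseg_col j0 z ∈ S₁ := by
      rintro _ ⟨a, ha, b, hb, rfl⟩
      rw [xseg_col_seg]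
      exact hc1 _ a ha
    have hrow : ∀ z ∈ segS S₁ S₂, xseg_row i0 z ∈ S₂ := by
      rintro _ ⟨a, ha, b, hb, rfl⟩
      rw [xseg_row_seg]
      exact hc2 _ b hb
    have hcv := map_mem_tsp (xseg_col j0) hcol hv
    rw [xseg_col_seg, tsp_smul hc1 hj0'] at hcv
    have hrv := map_mem_tsp (xseg_row i0) hrow hv
    rw [xseg_row_seg, tsp_smul hc2 hi0'] at hrv
    have hmin : ∀ i j, x i * y j * v (i0, j0) + x i0 * y j0 * v (i, j) =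
        x i * y j0 * v (i0, j) + x i0 * y j * v (i, j0) := by
      intro i j
      have h := hv _ (xseg_minor (S₁ := S₁) (S₂ := S₂) i i0 j j0)
      rw [dpol_sub, dpol_mul, dpol_mul, dpol_X, dpol_X, dpol_X, dpol_X] at h
      simp only [eval_X, seg_apply] at h
      linear_combination h
    have hx' : (y j0)⁻¹ • xseg_col j0 v ∈ tsp S₁ x := (tsp S₁ x).smul_mem _ hcv
    have hyy : y ∈ tsp S₂ y := self_mem_tsp hc2 hy
    have hy' : (x i0)⁻¹ • (xseg_row i0 v - ((y j0)⁻¹ * v (i0, j0)) • y) ∈ tsp S₂ y :=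
      (tsp S₂ y).smul_mem _ ((tsp S₂ y).sub_mem hrv ((tsp S₂ y).smul_mem _ hyy))
    refine ⟨_, hx', _, hy', ?_⟩
    funext ⟨i, j⟩
    have h := hmin i j
    rw [Pi.add_apply, seg_apply, seg_apply]
    simp only [Pi.smul_apply, smul_eq_mul, xseg_col_apply, xseg_row_apply, Pi.sub_apply]
    field_simp
    linear_combination h
  · rintro ⟨x', hx', y', hy', rfl⟩
    have hL : ∀ a ∈ S₁, xseg_L y a ∈ segS S₁ S₂ := fun a ha => ⟨a, ha, y, hy, rfl⟩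
    have hR : ∀ b ∈ S₂, xseg_R x b ∈ segS S₁ S₂ := fun b hb => ⟨x, hx, b, hb, rfl⟩
    exact (tsp (segS S₁ S₂) (seg x y)).add_mem (map_mem_tsp (xseg_L y) hL hx')
      (map_mem_tsp (xseg_R x) hR hy')

/-- the dimension of the tangent spaces -/
theorem xseg_dim {S₁ : Set (κ₁ → ℂ)} {S₂ : Set (κ₂ → ℂ)}
    (hc1 : ∀ a : ℂ, ∀ x ∈ S₁, a • x ∈ S₁) (hc2 : ∀ a : ℂ, ∀ x ∈ S₂, a • x ∈ S₂)
    {x : κ₁ → ℂ} (hx : x ∈ S₁) (hx0 : x ≠ 0) {y : κ₂ → ℂ} (hy : y ∈ S₂) (hy0 : y ≠ 0)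
    {n₁ n₂ : ℕ} (h1 : Module.finrank ℂ (tsp S₁ x) = n₁ + 1)
    (h2 : Module.finrank ℂ (tsp S₂ y) = n₂ + 1) :
    Module.finrank ℂ (tsp (segS S₁ S₂) (seg x y)) = n₁ + n₂ + 1 := by
  have hxx : x ∈ tsp S₁ x := self_mem_tsp hc1 hx
  have hyy : y ∈ tsp S₂ y := self_mem_tsp hc2 hy
  let Φ : (tsp S₁ x × tsp S₂ y) →ₗ[ℂ] (κ₁ × κ₂ → ℂ) :=
    ((xseg_L y).comp (tsp S₁ x).subtype).coprod ((xseg_R x).comp (tsp S₂ y).subtype)
  have hΦ : ∀ w : tsp S₁ x × tsp S₂ y, Φ w = seg (w.1 : κ₁ → ℂ) y + seg x (w.2 : κ₂ → ℂ) := by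
    intro w
    rfl
  have hrange : LinearMap.range Φ = tsp (segS S₁ S₂) (seg x y) := by
    ext v
    rw [LinearMap.mem_range, xseg_tan hc1 hc2 hx hx0 hy hy0]
    constructor
    · rintro ⟨w, rfl⟩
      exact ⟨w.1, w.1.2, w.2, w.2.2, hΦ w⟩
    · rintro ⟨x', hx', y', hy', rfl⟩
      exact ⟨(⟨x', hx'⟩, ⟨y', hy'⟩), hΦ _⟩
  have hker : LinearMap.ker Φ = Submodule.span ℂ
      {((⟨x, hxx⟩, ⟨-y, (tsp S₂ y).neg_mem hyy⟩) : tsp S₁ x × tsp S₂ y)} := by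
    ext w
    rw [LinearMap.mem_ker, hΦ, Submodule.mem_span_singleton]
    constructor
    · intro h
      obtain ⟨i0, hi0⟩ := Function.ne_iff.1 hx0
      obtain ⟨j0, hj0⟩ := Function.ne_iff.1 hy0
      have hi0' : x i0 ≠ 0 := hi0
      have hj0' : y j0 ≠ 0 := hj0
      have hij : ∀ i j, (w.1 : κ₁ → ℂ) i * y j + x i * (w.2 : κ₂ → ℂ) j = 0 := by
        intro i j
        exact congrFun h (i, j)
      refine ⟨-((w.2 : κ₂ → ℂ) j0 / y j0), ?_⟩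
      have hw1 : ∀ i, -((w.2 : κ₂ → ℂ) j0 / y j0) * x i = (w.1 : κ₁ → ℂ) i := by
        intro i
        have := hij i j0
        field_simp
        linear_combination -this
      refine Prod.ext (Subtype.ext (funext fun i => ?_)) (Subtype.ext (funext fun j => ?_))
      · exact hw1 i
      · have e1 : (((-((w.2 : κ₂ → ℂ) j0 / y j0)) •
            ((⟨x, hxx⟩, ⟨-y, (tsp S₂ y).neg_mem hyy⟩) : tsp S₁ x × tsp S₂ y)).2 : κ₂ → ℂ) j =
            -((w.2 : κ₂ → ℂ) j0 / y j0) * (-(y j)) := rfl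
        rw [e1]
        have h3 := hij i0 j
        have h4 := hw1 i0
        apply mul_left_cancel₀ hi0'
        rw [← h4] at h3
        linear_combination -h3
    · rintro ⟨c, rfl⟩
      have e1 : ((c • ((⟨x, hxx⟩, ⟨-y, (tsp S₂ y).neg_mem hyy⟩) :
          tsp S₁ x × tsp S₂ y)).1 : κ₁ → ℂ) = c • x := rfl
      have e2 : ((c • ((⟨x, hxx⟩, ⟨-y, (tsp S₂ y).neg_mem hyy⟩) :
          tsp S₁ x × tsp S₂ y)).2 : κ₂ → ℂ) = c • (-y) := rfl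
      rw [e1, e2, seg_smul_left, seg_smul_right]
      have e3 : seg x (-y) = -seg x y := by
        funext t
        simp only [seg, Pi.neg_apply, mul_neg]
      rw [e3, smul_neg, add_neg_cancel]
  have hker1 : Module.finrank ℂ (LinearMap.ker Φ) = 1 := by
    rw [hker]
    apply finrank_span_singleton
    intro h0
    have h1 : ((⟨x, hxx⟩ : tsp S₁ x)) = 0 := congrArg Prod.fst h0
    exact hx0 (congrArg Subtype.val h1)
  have hsum := LinearMap.finrank_range_add_finrank_ker Φ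
  rw [hker1, hrange, Module.finrank_prod, h1, h2] at hsum
  omega

end

/-- SEG -/
theorem st_SEG (hP : ST_PROD) : ST_SEG := by
  intro κ₁ κ₂ _ _ n₁ n₂ S₁ S₂ hS1 hS2
  obtain ⟨x0, hx0, hx0n⟩ := hS1.exists_ne
  obtain ⟨y0, hy0, hy0n⟩ := hS2.exists_ne
  have h01 : (0 : κ₁ → ℂ) ∈ S₁ := by
    have := hS1.cone 0 x0 hx0
    rwa [zero_smul] at this
  have h02 : (0 : κ₂ → ℂ) ∈ S₂ := by
    have := hS2.cone 0 y0 hy0
    rwa [zero_smul] at this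
  refine ⟨⟨xseg_closed hS1.closed hS2.closed hS1.cone hS2.cone h01 h02, ?_,
    xseg_irred hP hS1.irred hS2.irred, ?_, ?_⟩, ?_⟩
  · rintro a _ ⟨x, hx, y, hy, rfl⟩
    exact ⟨a • x, hS1.cone a x hx, y, hy, (seg_smul_left a x y).symm⟩
  · exact ⟨seg x0 y0, ⟨x0, hx0, y0, hy0, rfl⟩, seg_ne_zero hx0n hy0n⟩
  · rintro _ ⟨x, hx, y, hy, rfl⟩ hne
    have hxn : x ≠ 0 := by
      rintro rfl
      exact hne (seg_zero_left y)
    have hyn : y ≠ 0 := by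
      rintro rfl
      exact hne (seg_zero_right x)
    exact xseg_dim hS1.cone hS2.cone hx hxn hy hyn (hS1.smooth x hx hxn) (hS2.smooth y hy hyn)
  · intro x hx hxn y hy hyn v
    exact xseg_tan hS1.cone hS2.cone hx hxn hy hyn v

end Pool.Agent.Helper87.VM
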